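import Pool.Agent.Helper13.KC.S5
import Pool.Agent.Helper13.KC.TrD
import Pool.Agent.Helper91.KF.F5

set_option autoImplicit false

/-!
The degree equations: integrand `K (labelled 5-mask) * (A * [056] - B)`, table form.
-/

namespace KC

open KF

/-- The table of the degree equations; `B / A` is the bound. -/
structure TabD where
  KT : BT
  OFF : Nat
  A : Nat
  B : Nat

namespace TabD

variable (T : TabD)

/-- Entry of the table, with offset. -/
noncomputable def ke (r : Nat) : Nat := pk T.KT 96 79228162514264337593543950335 r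

/-- Entry of the table. -/
noncomputable def kd (r : Nat) : ℤ := (T.ke r : ℤ) - T.OFF

/-- The integrand. -/
noncomputable def GD (m : Nat) : ℤ :=
  T.kd (rt m) * ((T.A : ℤ) * ((m.testBit 30).toNat : ℤ) - T.B)

/-- The offset of the kernel version. -/
def offD : Nat := (T.A - T.B) * T.OFF

/-- Kernel version (with offset). -/
noncomputable def gDK (m : Nat) : Nat :=
  fc (T.ke (Nat.land m 1023)) fun k =>
  Bool.rec (motive := fun _ => Nat) (Nat.sub (Nat.mul T.A T.OFF) (Nat.mul T.B k))
    (Nat.mul (Nat.sub T.A T.B) k) (Nat.beq (Nat.land (Nat.shiftRight m 30) 1) 1)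

/-- All the checks. -/
structure Good : Prop where
  ab : T.B ≤ T.A
  off : T.B * 79228162514264337593543950335 ≤ T.A * T.OFF
  inv : ((List.range 1024).all fun r => vio0 r ||
    (Nat.beq (T.ke (rt (tau 1 r))) (T.ke r) && (Nat.beq (T.ke (rt (tau 2 r))) (T.ke r) &&
      Nat.beq (T.ke (rt (tau 3 r))) (T.ke r)))) = true

variable {T}

theorem ke_le (r : Nat) : T.ke r ≤ 79228162514264337593543950335 := by
  unfold ke pk
  exact Nat.and_le_right

theorem beq_bit30 (m : Nat) : Nat.beq (Nat.land (Nat.shiftRight m 30) 1) 1 = m.testBit 30 := by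
  have h : Nat.land (Nat.shiftRight m 30) 1 = (m.testBit 30).toNat := by
    change (m >>> 30) &&& 1 = _
    rw [Nat.and_one_is_mod, Nat.shiftRight_eq_div_pow, Nat.toNat_testBit]
  rw [h]
  cases m.testBit 30 <;> rfl

theorem gDK_eq (h : T.Good) (m : Nat) : ((T.gDK m : Nat) : ℤ) = T.GD m + T.offD := by
  have e1 : Nat.land m 1023 = rt m := by
    have := land_mod m 10
    rw [show (2 : Nat) ^ 10 - 1 = 1023 by norm_num] at this
    exact this
  have hle := ke_le (T := T) (rt m)
  have hab := h.ab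
  have hoff := h.off
  rw [gDK, fc_eq, e1, beq_bit30, GD, kd, offD]
  generalize T.ke (rt m) = k at *
  cases m.testBit 30
  · change (((T.A * T.OFF - T.B * k : Nat)) : ℤ) = _
    have h1 : T.B * k ≤ T.A * T.OFF := le_trans (Nat.mul_le_mul_left _ hle) hoff
    rw [Nat.cast_sub h1]
    push_cast [Nat.cast_sub hab]
    simp only [Bool.toNat_false, Nat.cast_zero]
    ring
  · change ((((T.A - T.B) * k : Nat)) : ℤ) = _
    push_cast [Nat.cast_sub hab]
    simp only [Bool.toNat_true, Nat.cast_one]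
    ring

theorem ba_30 : ba 1 30 = 30 ∧ ba 2 30 = 30 ∧ ba 3 30 = 30 ∧ ba 5 30 = 30 := by decide +kernel

theorem Good.inv' (h : T.Good) {r : Nat} (hr : r < 2 ^ 10) (hv : vio0 r = false) :
    T.ke (rt (tau 1 r)) = T.ke r ∧ T.ke (rt (tau 2 r)) = T.ke r ∧
      T.ke (rt (tau 3 r)) = T.ke r := by
  have := h.inv
  simp only [List.all_eq_true, List.mem_range] at this
  have h1 := this r hr
  rw [hv, Bool.false_or, Bool.and_eq_true, Bool.and_eq_true] at h1
  exact ⟨Nat.eq_of_beq_eq_true h1.1, Nat.eq_of_beq_eq_true h1.2.1,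
    Nat.eq_of_beq_eq_true h1.2.2⟩

theorem GD_inv (h : T.Good) : ∀ W ∈ gensD, ∀ m, Adm m → T.GD (awl W m) = T.GD m := by
  intro W hW m hm
  have hv := vio0_rt hm
  obtain ⟨k1, k2, k3⟩ := h.inv' (rt_lt m) hv
  obtain ⟨b1, b2, b3, b5⟩ := ba_30
  simp only [gensD, List.mem_cons, List.not_mem_nil, or_false] at hW
  rcases hW with rfl | rfl | rfl | rfl
  · change T.GD (tau 1 m) = _
    rw [GD, GD, rt_tau 1 m (by norm_num), tau_bit 1 m 30 (by norm_num) (by norm_num), b1, kd, kd,
      k1]
  · change T.GD (tau 2 m) = _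
    rw [GD, GD, rt_tau 2 m (by norm_num), tau_bit 2 m 30 (by norm_num) (by norm_num), b2, kd, kd,
      k2]
  · change T.GD (tau 3 m) = _
    rw [GD, GD, rt_tau 3 m (by norm_num), tau_bit 3 m 30 (by norm_num) (by norm_num), b3, kd, kd,
      k3]
  · change T.GD (tau 5 m) = _
    rw [GD, GD, rt_tau5, tau_bit 5 m 30 (by norm_num) (by norm_num), b5]

/-- The family sum is invariant. -/
theorem famD_awl (h : T.Good) (l : List Nat) (hl : wok l = true) (m : Nat) (hm : Adm m) :
    fam treeD.tr T.GD (awl l m) = fam treeD.tr T.GD m :=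
  fam_awl invTD (GD_inv h) l hl m hm

theorem treeD_len : treeD.tr.length = 105 := by decide +kernel

/-- Evaluation of the family sum by the kernel version. -/
theorem famK_D (h : T.Good) (m acc : Nat) :
    ((WT.famK treeD T.gDK m acc : Nat) : ℤ) = acc + fam treeD.tr T.GD m + 105 * T.offD := by
  have := WT.famK_int treeD T.gDK T.GD (T.offD : ℤ) m acc (fun U _ => gDK_eq h _)
  rw [treeD_len] at this
  exact this

/-- The multiplier alone (the coefficient of the density). -/
noncomputable def HD (T : TabD) (m : Nat) : ℤ := T.kd (rt m)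

/-- Kernel version. -/
noncomputable def hDK (T : TabD) (m : Nat) : Nat := T.ke (Nat.land m 1023)

theorem hDK_eq (m : Nat) : ((T.hDK m : Nat) : ℤ) = T.HD m + T.OFF := by
  have e1 : Nat.land m 1023 = rt m := by
    have := land_mod m 10
    rw [show (2 : Nat) ^ 10 - 1 = 1023 by norm_num] at this
    exact this
  rw [hDK, e1, HD, kd]
  ring

theorem HD_inv (h : T.Good) : ∀ W ∈ gensD, ∀ m, Adm m → T.HD (awl W m) = T.HD m := by
  intro W hW m hm
  obtain ⟨k1, k2, k3⟩ := h.inv' (rt_lt m) (vio0_rt hm)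
  simp only [gensD, List.mem_cons, List.not_mem_nil, or_false] at hW
  rcases hW with rfl | rfl | rfl | rfl
  · change T.HD (tau 1 m) = _
    rw [HD, HD, rt_tau 1 m (by norm_num), kd, kd, k1]
  · change T.HD (tau 2 m) = _
    rw [HD, HD, rt_tau 2 m (by norm_num), kd, kd, k2]
  · change T.HD (tau 3 m) = _
    rw [HD, HD, rt_tau 3 m (by norm_num), kd, kd, k3]
  · change T.HD (tau 5 m) = _
    rw [HD, HD, rt_tau5]

theorem famHD_awl (h : T.Good) (l : List Nat) (hl : wok l = true) (m : Nat) (hm : Adm m) :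
    fam treeD.tr T.HD (awl l m) = fam treeD.tr T.HD m :=
  fam_awl invTD (HD_inv h) l hl m hm

theorem famK_HD (m acc : Nat) :
    ((WT.famK treeD T.hDK m acc : Nat) : ℤ) = acc + fam treeD.tr T.HD m + 105 * T.OFF := by
  have := WT.famK_int treeD T.hDK T.HD (T.OFF : ℤ) m acc (fun U _ => hDK_eq _)
  rw [treeD_len] at this
  exact this

section
variable {V : Type} [Fintype V]

/-- The degree equations in expectation. -/
theorem Ev_GD {E : V → V → V → Bool} {w : V → ℝ} (ho : Opt E w) :
    Ev 7 w (fun φ => ((T.GD (msk E φ) : ℤ) : ℝ)) =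
      ((T.A : ℝ) * dens E w - T.B) * Ev 7 w (fun φ => ((T.kd (rt (msk E φ)) : ℤ) : ℝ)) := by
  have h1 := kcD ho (fun r => ((T.kd r : ℤ) : ℝ))
  have h2 : (fun φ : Fin 7 → V => ((T.GD (msk E φ) : ℤ) : ℝ)) = fun φ =>
      (T.A : ℝ) * gD (fun r => ((T.kd r : ℤ) : ℝ)) (dens E w) (msk E φ) +
        ((T.A : ℝ) * dens E w - T.B) * ((T.kd (rt (msk E φ)) : ℤ) : ℝ) := by
    funext φ
    have h3 : (((msk E φ).testBit 30).toNat : ℝ) = b2r ((msk E φ).testBit 30) := by
      unfold b2r
      cases (msk E φ).testBit 30 <;> simp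
    unfold GD gD rt
    push_cast
    rw [h3]
    ring
  rw [h2, Ev_add, Ev_mul, Ev_mul, h1]
  ring

/-- The symmetrised degree equations in expectation. -/
theorem Ev_famD {E : V → V → V → Bool} {w : V → ℝ} (ho : Opt E w) :
    Ev 7 w (fun φ => ((fam treeD.tr T.GD (msk E φ) : ℤ) : ℝ)) =
      105 * (((T.A : ℝ) * dens E w - T.B) *
        Ev 7 w (fun φ => ((T.kd (rt (msk E φ)) : ℤ) : ℝ))) := by
  have hw : ∀ W ∈ treeD.tr, wok W = true := by
    have : (treeD.tr.all wok) = true := by decide +kernel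
    exact List.all_eq_true.1 this
  rw [Ev_fam ho.free w ho.wt.one T.GD treeD.tr hw, treeD_len, Ev_GD ho]
  norm_num

/-- The same with the symmetrised multiplier. -/
theorem Ev_famD' {E : V → V → V → Bool} {w : V → ℝ} (ho : Opt E w) :
    Ev 7 w (fun φ => ((fam treeD.tr T.GD (msk E φ) : ℤ) : ℝ)) =
      ((T.A : ℝ) * dens E w - T.B) *
        Ev 7 w (fun φ => ((fam treeD.tr T.HD (msk E φ) : ℤ) : ℝ)) := by
  have hw : ∀ W ∈ treeD.tr, wok W = true := by
    have : (treeD.tr.all wok) = true := by decide +kernel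
    exact List.all_eq_true.1 this
  rw [Ev_famD ho, Ev_fam ho.free w ho.wt.one T.HD treeD.tr hw, treeD_len]
  simp only [HD]
  push_cast
  ring

end

end TabD

end KC
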